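import Pool.Agent.Helper13.TL.ModelAux

set_option autoImplicit false
set_option maxHeartbeats 4000000
set_option linter.unusedVariables false
set_option linter.deprecated false

/-! # TL: the cubic tiling -/

namespace TL

open Set

namespace V13

variable {d : ℕ}

/-- basis vectors -/
noncomputable def sg (d k : ℕ) : E d := if h : k < d then EuclideanSpace.single ⟨k, h⟩ 1 else 0

/-- coordinates -/
noncomputable def co (x : E d) (k : ℕ) : ℝ := if h : k < d then x ⟨k, h⟩ else 0

lemma inner_sg (k : ℕ) (x : E d) : inner ℝ (sg d k) x = co x k := by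
  unfold sg co
  split_ifs with h
  · rw [EuclideanSpace.inner_single_left]; simp
  · simp

lemma co_sg (k l : ℕ) : co (sg d k) l = if k = l ∧ k < d then 1 else 0 := by
  unfold sg co
  by_cases hl : l < d
  · by_cases hk : k < d
    · simp only [hl, hk, dif_pos, and_true]
      rw [EuclideanSpace.single_apply]
      by_cases h : k = l
      · subst h; simp
      · rw [if_neg h, if_neg]
        intro h'
        exact h (Fin.mk.inj_iff.mp h').symm
    · simp [hk]
  · by_cases hk : k < d
    · have : k ≠ l := by omega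
      simp [hl, this]
    · simp [hk]

lemma co_sub (x y : E d) (k : ℕ) : co (x - y) k = co x k - co y k := by
  unfold co; split_ifs <;> simp

lemma co_smul (a : ℝ) (x : E d) (k : ℕ) : co (a • x) k = a * co x k := by
  unfold co; split_ifs <;> simp

lemma co_zero (k : ℕ) : co (0 : E d) k = 0 := by
  unfold co; split_ifs <;> simp

lemma co_lt (x : E d) (k : Fin d) : co x k = x k := by
  unfold co; simp

/-- normals -/
noncomputable def nC (d : ℕ) (i : ℕ) : E d := (if i = 0 then 0 else sg d (i - 1)) - sg d i

lemma inner_nC (i : ℕ) (x : E d) :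
    inner ℝ (nC d i) x = (if i = 0 then 0 else co x (i - 1)) - co x i := by
  unfold nC
  rw [inner_sub_left, inner_sg]
  split_ifs
  · simp
  · rw [inner_sg]

lemma co_nC (i k : ℕ) : co (nC d i) k =
    (if i = 0 then 0 else (if i - 1 = k ∧ i - 1 < d then 1 else 0)) -
      (if i = k ∧ i < d then 1 else 0) := by
  unfold nC
  rw [co_sub, co_sg]
  by_cases h : i = 0
  · rw [if_pos h, if_pos h, co_zero]
  · rw [if_neg h, if_neg h, co_sg]

lemma rf_eq0 (hd : 3 ≤ d) (x : E d) (k : ℕ) :
    co (rf (nC d 0) 0 x) k = if k = 0 then -co x 0 else co x k := by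
  have h1 : (inner ℝ (nC d 0) (nC d 0) : ℝ) = 1 := by
    rw [inner_nC, co_nC]; simp; omega
  unfold rf
  rw [co_sub, co_smul, h1, inner_nC, co_nC]
  by_cases hk : k = 0
  · subst hk
    have : 0 < d := by omega
    simp [this]; ring
  · have : (0 : ℕ) ≠ k := fun h => hk h.symm
    simp [this, hk]

lemma rf_eqj (hd : 3 ≤ d) (i : ℕ) (h0 : i ≠ 0) (h1 : i < d) (x : E d) (k : ℕ) :
    co (rf (nC d i) 0 x) k = if k = i - 1 then co x i else if k = i then co x (i - 1)
      else co x k := by
  have hi : i - 1 < d := by omega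
  have h1' : (inner ℝ (nC d i) (nC d i) : ℝ) = 2 := by
    rw [inner_nC, co_nC, co_nC]
    have e1 : i ≠ i - 1 := by omega
    have e2 : i - 1 ≠ i := by omega
    simp [h0, h1, hi, e1, e2]
    norm_num
  unfold rf
  rw [co_sub, co_smul, h1', inner_nC, co_nC]
  by_cases hk : k = i - 1
  · subst hk
    have e1 : i ≠ i - 1 := by omega
    simp [h0, h1, hi, e1]
  · by_cases hk2 : k = i
    · subst hk2
      have e1 : k - 1 ≠ k := by omega
      have e2 : k ≠ k - 1 := by omega
      simp [h0, h1, e1, e2]
    · have e1 : i - 1 ≠ k := fun h => hk h.symm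
      have e2 : i ≠ k := fun h => hk2 h.symm
      simp [h0, e1, e2, hk, hk2]

lemma rf_eqd (hd : 3 ≤ d) (x : E d) (k : ℕ) :
    co (rf (nC d d) (1 / 2) x) k = if k = d - 1 then 1 - co x k else co x k := by
  have h0 : d ≠ 0 := by omega
  have h1 : (inner ℝ (nC d d) (nC d d) : ℝ) = 1 := by
    rw [inner_nC, co_nC, co_nC]
    have e1 : d ≠ d - 1 := by omega
    have e2 : d - 1 ≠ d := by omega
    have e3 : d - 1 < d := by omega
    simp [h0, e2, e3]
  unfold rf
  have hcd : co x d = 0 := by unfold co; simp
  rw [co_sub, co_smul, h1, inner_nC, co_nC]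
  by_cases hk : k = d - 1
  · subst hk
    have e3 : d - 1 < d := by omega
    simp [h0, e3, hcd]; ring
  · have e1 : d - 1 ≠ k := fun h => hk h.symm
    simp [h0, e1, hk]

end V13

open V13 in
theorem cube_thm (hV : S_VOR) (hR : S_RFL) : S_CUBE := by
  intro d hd
  set X : Set (E d) := {x | ∀ i, ∃ k : ℤ, x i = k} with hX
  have hXco : ∀ x : E d, x ∈ X ↔ ∀ k, ∃ m : ℤ, co x k = m := by
    intro x
    constructor
    · intro h k
      unfold co
      split_ifs with hk
      · exact h ⟨k, hk⟩
      · exact ⟨0, by simp⟩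
    · intro h i
      obtain ⟨m, hm⟩ := h i
      exact ⟨m, by rw [← hm, co_lt]⟩
  have hin : ∀ (k : Fin d) (x : E d), (inner ℝ (sg d k) x : ℝ) = co x k := fun k x => inner_sg _ _
  have hself : ∀ k : Fin d, (inner ℝ (sg d k) (sg d k) : ℝ) = 1 := by
    intro k; rw [inner_sg, co_sg]; simp
  have hcq : ∀ (i : ℕ) (k : ℕ), co (WithLp.toLp 2 (fun t : Fin d => if (t : ℕ) < i then 0 else 1 / 2) : E d) k
      = if k < i then 0 else if k < d then 1 / 2 else 0 := by
    intro i k
    unfold co
    by_cases h1 : k < d <;> by_cases h2 : k < i <;> simp [h1, h2]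
  refine model_aux hV hR (by omega) _ X ?_ ?_ (fun i => nC d i)
    (fun i => if i = Fin.last d then 1 / 2 else 0) ?_ (fun k => sg d k) ?_ ?_ ?_ ?_ ?_ ?_
    (fun i => WithLp.toLp 2 (fun t : Fin d => if (t : ℕ) < i then 0 else 1 / 2)) ?_ ?_ ?_ ?_ ?_ ?_ ?_
  · intro x hx i
    obtain ⟨k, hk⟩ := hx i
    exact ⟨2 * k, by rw [hk]; push_cast; rfl⟩
  · intro x hx i
    obtain ⟨k, hk⟩ := hx i
    exact ⟨2 * k, by rw [hk]; push_cast; rfl⟩
  · intro i h
    have h1 : ∀ k, co (nC d i) k = 0 := fun k => by rw [h, co_zero]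
    by_cases hi : (i : ℕ) = 0
    · have := h1 0
      rw [co_nC, hi] at this
      have h0 : 0 < d := by omega
      simp [h0] at this
    · have := h1 (i - 1)
      rw [co_nC] at this
      have e1 : (i : ℕ) - 1 < d := by have := i.isLt; omega
      have e2 : (i : ℕ) ≠ i - 1 := by omega
      simp [hi, e1, e2] at this
  · intro j
    rw [hXco]
    intro k
    rw [co_sg]
    split_ifs
    · exact ⟨1, by simp⟩
    · exact ⟨0, by simp⟩
  · intro j h
    have := hself j
    rw [h] at this
    simp at this
  · intro i x hx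
    rw [hXco] at hx ⊢
    intro k
    by_cases hi : i = Fin.last d
    · subst hi
      simp only [if_true, Fin.val_last]
      rw [rf_eqd hd]
      split_ifs
      · obtain ⟨m, hm⟩ := hx k
        exact ⟨1 - m, by rw [hm]; push_cast; rfl⟩
      · exact hx k
    · simp only [hi, if_false]
      by_cases h0 : (i : ℕ) = 0
      · rw [h0, rf_eq0 hd]
        split_ifs
        · obtain ⟨m, hm⟩ := hx 0
          exact ⟨-m, by rw [hm]; push_cast; rfl⟩
        · exact hx k
      · have h1 : (i : ℕ) < d := by
          have := i.isLt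
          have h2 : (i : ℕ) ≠ d := fun h => hi (Fin.ext (by simpa using h))
          omega
        rw [rf_eqj hd i h0 h1]
        split_ifs
        · exact hx _
        · exact hx _
        · exact hx _
  · intro i hi
    simp [hi]
  · simp only [Fin.val_last]
    unfold nC
    rw [if_neg (by omega)]
    have : sg d d = 0 := by unfold sg; simp
    rw [this, sub_zero]
  · simp only [if_true]
    rw [inner_sg, co_sg]
    have : d - 1 < d := by omega
    simp [this]
  · -- hq
    intro i
    rw [mem_vc]
    intro b hb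
    have e : ll 0 b (WithLp.toLp 2 (fun t : Fin d => if (t : ℕ) < i then 0 else 1 / 2)) =
        ∑ t : Fin d, ((b t) ^ 2 - 2 * ((if (t : ℕ) < i then 0 else 1 / 2) * b t)) := by
      simp only [ll, norm_zero, inner_zero_right]
      rw [EuclideanSpace.norm_sq_eq, PiLp.inner_apply, Finset.sum_sub_distrib, ← Finset.mul_sum]
      simp only [Real.norm_eq_abs, sq_abs]
      simp
      apply Finset.sum_congr rfl
      intro t _
      split_ifs <;> ring
    rw [e]
    apply Finset.sum_nonneg
    intro t _
    obtain ⟨m, hm⟩ := hb t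
    rw [hm]
    split_ifs
    · nlinarith [sq_nonneg (m : ℝ)]
    · have : (m : ℝ) ≤ (m : ℝ) ^ 2 := by
        exact_mod_cast (Int.le_self_sq m)
      nlinarith
  · -- hq0
    ext t
    simp
  · -- hq1
    intro i j hij
    rw [hself, hin, hcq]
    have h1 : ¬ (j : ℕ) < i := by omega
    simp [h1]
  · -- hq2
    intro i j hij
    have hj0 : (j : ℕ) ≠ 0 := by
      have : (i : ℕ) < j := hij
      omega
    refine ⟨⟨j - 1, by have := j.isLt; omega⟩, ?_, ?_⟩
    · have : (i : ℕ) < j := hij
      simp only
      omega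
    · rw [hself, hin, hcq]
      have : (j : ℕ) - 1 < j := by omega
      simp [this]
  · -- hfix
    intro i j hi hji x hx k hk
    have hx' : ∀ k : ℕ, (j : ℕ) ≤ k → k < d → co x k = 1 / 2 := by
      intro k hk hkd
      have := hx ⟨k, hkd⟩ hk
      rw [hself, hin] at this
      exact this
    rw [hself, hin]
    simp only [hi, if_false]
    have hji' : (j : ℕ) ≠ i := fun h => hji (Fin.ext h)
    have hkd := k.isLt
    by_cases h0 : (i : ℕ) = 0
    · rw [h0, rf_eq0 hd]
      rw [if_neg (by omega)]
      exact hx' k hk hkd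
    · have h1 : (i : ℕ) < d := by
        have := i.isLt
        have h2 : (i : ℕ) ≠ d := fun h => hi (Fin.ext (by simpa using h))
        omega
      rw [rf_eqj hd i h0 h1]
      split_ifs with h2 h3
      · exact hx' i (by omega) h1
      · exact hx' (i - 1) (by omega) (by omega)
      · exact hx' k hk hkd
  · -- hmv
    intro i hi
    have h1 : (i : ℕ) < d := by
      have := i.isLt
      have h2 : (i : ℕ) ≠ d := fun h => hi (Fin.ext (by simpa using h))
      omega
    refine ⟨⟨i, h1⟩, le_rfl, ?_⟩
    rw [hself, hin]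
    simp only [hi, if_false]
    by_cases h0 : (i : ℕ) = 0
    · rw [h0, rf_eq0 hd]
      simp only [if_true]
      rw [hcq]
      have : 0 < d := by omega
      simp [this]
      norm_num
    · rw [rf_eqj hd i h0 h1]
      have e1 : (i : ℕ) ≠ i - 1 := by omega
      have e2 : (i : ℕ) - 1 < i := by omega
      simp only [e1, if_false, if_true]
      rw [hcq]
      simp [e2]
  · -- hord
    intro i j hij
    have hjd : (j : ℕ) ≤ d := by have := j.isLt; omega
    have hid : (i : ℕ) < d := by omega
    rw [← hij]
    have A : (inner ℝ (nC d i) (nC d (i + 1)) : ℝ) = -1 := by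
      rw [inner_nC, co_nC, co_nC]
      have e1 : (i : ℕ) + 1 - 1 = i := by omega
      have e2 : (i : ℕ) + 1 ≠ i := by omega
      by_cases h0 : (i : ℕ) = 0
      · simp [h0]; omega
      · have e3 : (i : ℕ) + 1 ≠ i - 1 := by omega
        have e4 : (i : ℕ) ≠ i - 1 := by omega
        simp [h0, e3, e4, hid]
    have B : (inner ℝ (nC d i) (nC d i) : ℝ) = if (i : ℕ) = 0 then 1 else 2 := by
      rw [inner_nC, co_nC, co_nC]
      by_cases h0 : (i : ℕ) = 0
      · simp [h0]; omega
      · have e3 : (i : ℕ) ≠ i - 1 := by omega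
        have e4 : (i : ℕ) - 1 ≠ i := by omega
        have e5 : (i : ℕ) - 1 < d := by omega
        simp [h0, e3, e4, hid, e5]
        norm_num
    have C : (inner ℝ (nC d (i + 1)) (nC d (i + 1)) : ℝ) = if (i : ℕ) + 1 = d then 1 else 2 := by
      rw [inner_nC, co_nC, co_nC]
      have e1 : (i : ℕ) + 1 - 1 = i := by omega
      have e2 : (i : ℕ) ≠ i + 1 := by omega
      by_cases h0 : (i : ℕ) + 1 = d
      · have e6 : ¬ (i : ℕ) + 1 < d := by omega
        have e7 : d - 1 < d := by omega
        have e8 : ¬ (i : ℕ) = d := by omega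
        have e9 : ¬ d = (i : ℕ) := by omega
        rw [e1]
        have e10 : ¬ d = 0 := by omega
        simp [h0, hid, e8, e10]
      · have e6 : (i : ℕ) + 1 < d := by omega
        simp [h0, hid, e6]
        norm_num
    rw [A, B, C]
    by_cases h0 : (i : ℕ) = 0
    · right
      have : (i : ℕ) + 1 ≠ d := by omega
      simp [h0]
      rw [h0] at this
      simp only [zero_add] at this
      simp [this]
    · by_cases h1 : (i : ℕ) + 1 = d
      · right
        simp [h0, h1]
      · left
        simp [h0, h1]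
        norm_num

end TL
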