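import Pool.Agent.Helper13.TL.ModelAux

set_option autoImplicit false
set_option maxHeartbeats 4000000
set_option linter.unusedVariables false
set_option linter.deprecated false

/-! # TL: the tilings `{3,4,3,3}` and `{3,3,4,3}` -/

namespace TL

open Set

namespace V13

/-- vectors of `E^4` -/
noncomputable def v4 (a b c e : ℝ) : E 4 := !₂[a, b, c, e]

@[simp] lemma v4_0 (a b c e : ℝ) : v4 a b c e 0 = a := rfl
@[simp] lemma v4_1 (a b c e : ℝ) : v4 a b c e 1 = b := rfl
@[simp] lemma v4_2 (a b c e : ℝ) : v4 a b c e 2 = c := rfl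
@[simp] lemma v4_3 (a b c e : ℝ) : v4 a b c e 3 = e := rfl

lemma in4 (x y : E 4) : (inner ℝ x y : ℝ) = x 0 * y 0 + x 1 * y 1 + x 2 * y 2 + x 3 * y 3 := by
  rw [PiLp.inner_apply]
  simp [Fin.sum_univ_four]
  ring

lemma rf4 (n : E 4) (c : ℝ) (x : E 4) (t : Fin 4) :
    rf n c x t = x t - (2 * (inner ℝ n x - c) / inner ℝ n n) * n t := by
  simp [rf]

lemma ll4 (b x : E 4) : ll 0 b x = (b 0 ^ 2 + b 1 ^ 2 + b 2 ^ 2 + b 3 ^ 2) -
    2 * (x 0 * b 0 + x 1 * b 1 + x 2 * b 2 + x 3 * b 3) := by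
  simp only [ll, norm_zero, inner_zero_right]
  rw [← real_inner_self_eq_norm_sq, in4, in4]
  ring

/-- normals for `{3,4,3,3}` -/
noncomputable def nA : Fin 5 → E 4 :=
  ![v4 1 (-1) (-1) (-1), v4 0 0 0 1, v4 0 0 1 (-1), v4 0 1 (-1) 0, v4 1 1 0 0]

/-- facets for `{3,4,3,3}` -/
noncomputable def bA : Fin 4 → E 4 :=
  ![v4 1 (-1) 0 0, v4 1 0 0 1, v4 1 0 1 0, v4 1 1 0 0]

/-- points for `{3,4,3,3}` -/
noncomputable def qA : Fin 5 → E 4 :=
  ![v4 1 0 0 0, v4 (1/2) (1/2) (1/2) (1/2), v4 (1/2) (1/2) (1/2) (-1/2),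
    v4 (1/2) (1/2) (-1/2) (1/2), v4 0 0 0 0]

/-- the lattice `D4` -/
def XA : Set (E 4) := {x | ∃ a b c e : ℤ, x = v4 a b c e ∧ ∃ k : ℤ, a + b + c + e = 2 * k}

lemma ext4 {x y : E 4} (h0 : x 0 = y 0) (h1 : x 1 = y 1) (h2 : x 2 = y 2) (h3 : x 3 = y 3) :
    x = y := by
  ext t
  fin_cases t <;> assumption


/-- reflection in `E^4` by a coefficient -/
lemma rfA (i : Fin 5) (c : ℝ) (x : E 4) (m : ℝ) (hm : (2 * (inner ℝ (nA i) x - c) / inner ℝ (nA i) (nA i) : ℝ) = m) :
    rf (nA i) c x = v4 (x 0 - m * nA i 0) (x 1 - m * nA i 1) (x 2 - m * nA i 2)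
      (x 3 - m * nA i 3) := by
  apply ext4 <;> rw [rf4, hm] <;> rfl

end V13

open V13 in
theorem m3433_thm (hV : S_VOR) (hR : S_RFL) : S_M3433 := by
  have hbb : ∀ k : Fin 4, (inner ℝ (bA k) (bA k) / 2 : ℝ) = 1 := by
    intro k
    rw [in4]
    fin_cases k <;> simp [bA] <;> norm_num
  refine model_aux hV hR (by norm_num) _ XA ?_ ?_ nA (fun i => if i = Fin.last 4 then 1 else 0) ?_
    bA ?_ ?_ ?_ ?_ ?_ ?_ qA ?_ ?_ ?_ ?_ ?_ ?_ ?_
  · intro x hx
    obtain ⟨a, ha⟩ := hx 0
    obtain ⟨b, hb⟩ := hx 1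
    obtain ⟨c, hc⟩ := hx 2
    obtain ⟨e, he⟩ := hx 3
    refine ⟨2 * a, 2 * b, 2 * c, 2 * e, ?_, a + b + c + e, by ring⟩
    apply ext4 <;> simp [ha, hb, hc, he]
  · rintro x ⟨a, b, c, e, rfl, -⟩ i
    fin_cases i
    · exact ⟨2 * a, by simp⟩
    · exact ⟨2 * b, by simp⟩
    · exact ⟨2 * c, by simp⟩
    · exact ⟨2 * e, by simp⟩
  · intro i h
    have h0 := congrArg (fun v : E 4 => inner ℝ v v) h
    simp only [in4] at h0
    fin_cases i <;> simp [nA] at h0 <;> norm_num at h0
  · intro j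
    fin_cases j
    · exact ⟨1, -1, 0, 0, by simp [bA], 0, by norm_num⟩
    · exact ⟨1, 0, 0, 1, by simp [bA], 1, by norm_num⟩
    · exact ⟨1, 0, 1, 0, by simp [bA], 1, by norm_num⟩
    · exact ⟨1, 1, 0, 0, by simp [bA], 1, by norm_num⟩
  · intro j h
    have := hbb j
    rw [h] at this
    simp at this
  · -- hX
    rintro i x ⟨a, b, c, e, rfl, k, hk⟩
    have hkR : (a : ℝ) + b + c + e = 2 * k := by exact_mod_cast hk
    fin_cases i
    · rw [rfA _ _ _ ((k : ℝ) - b - c - e) (by
        rw [in4, in4]; simp [nA]; linarith)]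
      refine ⟨a - (k - b - c - e), b + (k - b - c - e), c + (k - b - c - e), e + (k - b - c - e),
        ?_, k + (k - b - c - e), by linarith⟩
      apply ext4 <;> simp [nA] <;> ring
    · rw [rfA _ _ _ (2 * (e : ℝ)) (by rw [in4, in4]; simp [nA])]
      refine ⟨a, b, c, -e, ?_, k - e, by linarith⟩
      apply ext4 <;> simp [nA]
      ring
    · rw [rfA _ _ _ ((c : ℝ) - e) (by rw [in4, in4]; simp [nA]; ring)]
      refine ⟨a, b, e, c, ?_, k, by linarith⟩
      apply ext4 <;> simp [nA]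
    · rw [rfA _ _ _ ((b : ℝ) - c) (by rw [in4, in4]; simp [nA]; ring)]
      refine ⟨a, c, b, e, ?_, k, by linarith⟩
      apply ext4 <;> simp [nA]
    · rw [rfA _ _ _ ((a : ℝ) + b - 1) (by
        rw [in4, in4]; simp [nA, Fin.last]; norm_num)]
      refine ⟨1 - b, 1 - a, c, e, ?_, k + 1 - a - b, by linarith⟩
      apply ext4 <;> simp [nA] <;> ring
  · intro i hi
    exact if_neg hi
  · rfl
  · change (1 : ℝ) = inner ℝ (bA 3) (bA 3) / 2
    rw [hbb]
  · -- hq
    intro i
    rw [mem_vc]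
    rintro x ⟨a, b, c, e, rfl, k, hk⟩
    rw [ll4]
    have ha1 : (a : ℝ) ≤ (a : ℝ) ^ 2 := by exact_mod_cast Int.le_self_sq a
    have hb1 : (b : ℝ) ≤ (b : ℝ) ^ 2 := by exact_mod_cast Int.le_self_sq b
    have hc1 : (c : ℝ) ≤ (c : ℝ) ^ 2 := by exact_mod_cast Int.le_self_sq c
    have he1 : (e : ℝ) ≤ (e : ℝ) ^ 2 := by exact_mod_cast Int.le_self_sq e
    have hc2 : -(c : ℝ) ≤ (c : ℝ) ^ 2 := by
      have := Int.le_self_sq (-c)
      have h : (-(c : ℤ) : ℤ) ≤ c ^ 2 := by simpa using this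
      exact_mod_cast h
    have he2 : -(e : ℝ) ≤ (e : ℝ) ^ 2 := by
      have := Int.le_self_sq (-e)
      have h : (-(e : ℤ) : ℤ) ≤ e ^ 2 := by simpa using this
      exact_mod_cast h
    fin_cases i
    · simp only [qA, v4_0, v4_1, v4_2, v4_3]
      have : (1 : ℤ) ≤ (a - 1) ^ 2 + b ^ 2 + c ^ 2 + e ^ 2 := by
        by_contra hlt
        push Not at hlt
        have h1 : (a - 1) ^ 2 = 0 := by
          nlinarith [sq_nonneg (a - 1), sq_nonneg b, sq_nonneg c, sq_nonneg e]
        have h2 : b ^ 2 = 0 := by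
          nlinarith [sq_nonneg (a - 1), sq_nonneg b, sq_nonneg c, sq_nonneg e]
        have h3 : c ^ 2 = 0 := by
          nlinarith [sq_nonneg (a - 1), sq_nonneg b, sq_nonneg c, sq_nonneg e]
        have h4 : e ^ 2 = 0 := by
          nlinarith [sq_nonneg (a - 1), sq_nonneg b, sq_nonneg c, sq_nonneg e]
        have h1' := pow_eq_zero_iff (two_ne_zero) |>.mp h1
        have h2' := pow_eq_zero_iff (two_ne_zero) |>.mp h2
        have h3' := pow_eq_zero_iff (two_ne_zero) |>.mp h3
        have h4' := pow_eq_zero_iff (two_ne_zero) |>.mp h4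
        omega
      have hR' : (1 : ℝ) ≤ ((a : ℝ) - 1) ^ 2 + (b : ℝ) ^ 2 + (c : ℝ) ^ 2 + (e : ℝ) ^ 2 := by
        exact_mod_cast this
      simp [qA]
      nlinarith
    · simp [qA]; linarith
    · simp [qA]; linarith
    · simp [qA]; linarith
    · simp [qA]; positivity
  · -- hq0
    apply ext4 <;> simp [qA, Fin.last]
  · -- hq1
    intro i j hij
    rw [hbb, in4]
    fin_cases i <;> fin_cases j <;> simp [qA, bA] at hij ⊢ <;> norm_num
  · -- hq2
    intro i j hij
    simp only [hbb, in4]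
    fin_cases j
    · exact absurd hij (by simp)
    · refine ⟨0, ?_, ?_⟩
      · have : (i : ℕ) < 1 := hij
        simp; omega
      · simp [qA, bA]
    · refine ⟨1, ?_, ?_⟩
      · have : (i : ℕ) < 2 := hij
        simp; omega
      · simp [qA, bA]; norm_num
    · refine ⟨2, ?_, ?_⟩
      · have : (i : ℕ) < 3 := hij
        simp; omega
      · simp [qA, bA]; norm_num
    · refine ⟨3, ?_, ?_⟩
      · have : (i : ℕ) < 4 := hij
        simp; omega
      · simp [qA, bA]
  · -- hfix
    intro i j hi hji x hx k hk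
    simp only [hbb, in4] at hx ⊢
    have h0 : (j : ℕ) ≤ 0 → x 0 - x 1 = 1 := fun h => by
      have := hx 0 h; simp [bA] at this; linarith
    have h1 : (j : ℕ) ≤ 1 → x 0 + x 3 = 1 := fun h => by
      have := hx 1 h; simp [bA] at this; linarith
    have h2 : (j : ℕ) ≤ 2 → x 0 + x 2 = 1 := fun h => by
      have := hx 2 h; simp [bA] at this; linarith
    have h3 : (j : ℕ) ≤ 3 → x 0 + x 1 = 1 := fun h => by
      have := hx 3 h; simp [bA] at this; linarith
    have hji' : (j : ℕ) ≠ i := fun h => hji (Fin.ext h)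
    clear hx hji
    simp only [rf4, in4]
    rcases k with ⟨k, hk4⟩
    rcases i with ⟨i, hi5⟩
    simp only at hk hji'
    have hi4 : i ≠ 4 := fun h => hi (Fin.ext h)
    have hif : (if (⟨i, hi5⟩ : Fin 5) = Fin.last 4 then (1 : ℝ) else 0) = 0 := if_neg hi
    rw [hif]
    clear hif hi hbb
    interval_cases i
    · -- j ≥ 1
      have hj : 1 ≤ (j : ℕ) := by omega
      interval_cases k
      · omega
      · have := h1 hk
        simp [nA, bA]; linarith
      · have := h2 hk
        simp [nA, bA]; linarith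
      · have := h3 hk
        simp [nA, bA]; linarith
    · interval_cases k
      · have a0 := h0 hk
        simp [nA, bA]; linarith
      · have hk0 : (j : ℕ) ≤ 0 := by omega
        have a0 := h0 hk0
        have a1 := h1 (by omega)
        have a3 := h3 (by omega)
        simp [nA, bA]; linarith
      · have := h2 hk
        simp [nA, bA]; linarith
      · have := h3 hk
        simp [nA, bA]; linarith
    · interval_cases k
      · have a0 := h0 hk
        simp [nA, bA]; linarith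
      · have a1 := h1 hk
        have a2 := h2 (by omega)
        simp [nA, bA]; linarith
      · have a2 := h2 hk
        have a1 := h1 (by omega)
        simp [nA, bA]; linarith
      · have := h3 hk
        simp [nA, bA]; linarith
    · interval_cases k
      · have a0 := h0 hk
        have a2 := h2 (by omega)
        have a3 := h3 (by omega)
        simp [nA, bA]; linarith
      · have a1 := h1 hk
        simp [nA, bA]; linarith
      · have a2 := h2 hk
        have a3 := h3 (by omega)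
        simp [nA, bA]; linarith
      · have a3 := h3 hk
        have a2 := h2 (by omega)
        simp [nA, bA]; linarith
    · exact absurd rfl hi4
  · -- hmv
    intro i hi
    simp only [hbb, in4, rf4, hi, if_false]
    fin_cases i
    · refine ⟨0, by simp, ?_⟩
      simp [nA, bA, qA]; norm_num
    · refine ⟨1, by simp, ?_⟩
      simp [nA, bA, qA]; norm_num
    · refine ⟨2, by simp, ?_⟩
      simp [nA, bA, qA]; norm_num
    · refine ⟨3, by simp, ?_⟩
      simp [nA, bA, qA]; norm_num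
    · exact absurd rfl hi
  · -- hord
    intro i j hij
    simp only [in4]
    rcases i with ⟨i, hi5⟩
    rcases j with ⟨j, hj5⟩
    simp only at hij
    subst hij
    have hi4 : i < 4 := by omega
    interval_cases i
    · left; simp [nA]; norm_num
    · right; simp [nA]; norm_num
    · left; simp [nA]; norm_num
    · left; simp [nA]; norm_num


namespace V13

/-- normals for `{3,3,4,3}` -/
noncomputable def nB : Fin 5 → E 4 :=
  ![v4 1 (-1) 0 0, v4 0 1 (-1) 0, v4 0 0 1 (-1), v4 0 0 0 1, v4 (1/2) (1/2) (1/2) (1/2)]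

/-- facets for `{3,3,4,3}` -/
noncomputable def bB : Fin 4 → E 4 :=
  ![v4 (1/2) (-1/2) (1/2) (1/2), v4 (1/2) (1/2) (-1/2) (1/2), v4 (1/2) (1/2) (1/2) (-1/2),
    v4 (1/2) (1/2) (1/2) (1/2)]

/-- points for `{3,3,4,3}` -/
noncomputable def qB : Fin 5 → E 4 :=
  ![v4 1 0 0 0, v4 0 1 0 0, v4 0 0 1 0, v4 0 0 0 1, v4 0 0 0 0]

/-- the set `D4 ∪ (ℤ + 1/2)^4` -/
def XB : Set (E 4) := {x | (∃ a b c e : ℤ, x = v4 a b c e ∧ ∃ k : ℤ, a + b + c + e = 2 * k) ∨
  ∃ a b c e : ℤ, x = v4 (a + 1 / 2) (b + 1 / 2) (c + 1 / 2) (e + 1 / 2)}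

lemma rfB (i : Fin 5) (c : ℝ) (x : E 4) (m : ℝ) (hm : (2 * (inner ℝ (nB i) x - c) / inner ℝ (nB i) (nB i) : ℝ) = m) :
    rf (nB i) c x = v4 (x 0 - m * nB i 0) (x 1 - m * nB i 1) (x 2 - m * nB i 2)
      (x 3 - m * nB i 3) := by
  apply ext4 <;> rw [rf4, hm] <;> rfl

lemma sq4 {a b c e : ℤ} (h : ¬ (a = 0 ∧ b = 0 ∧ c = 0 ∧ e = 0)) :
    (1 : ℝ) ≤ (a : ℝ) ^ 2 + (b : ℝ) ^ 2 + (c : ℝ) ^ 2 + (e : ℝ) ^ 2 := by
  have : (1 : ℤ) ≤ a ^ 2 + b ^ 2 + c ^ 2 + e ^ 2 := by
    by_contra hlt
    push Not at hlt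
    have h1 : a ^ 2 = 0 := by
      nlinarith [sq_nonneg a, sq_nonneg b, sq_nonneg c, sq_nonneg e]
    have h2 : b ^ 2 = 0 := by
      nlinarith [sq_nonneg a, sq_nonneg b, sq_nonneg c, sq_nonneg e]
    have h3 : c ^ 2 = 0 := by
      nlinarith [sq_nonneg a, sq_nonneg b, sq_nonneg c, sq_nonneg e]
    have h4 : e ^ 2 = 0 := by
      nlinarith [sq_nonneg a, sq_nonneg b, sq_nonneg c, sq_nonneg e]
    have h1' := pow_eq_zero_iff (two_ne_zero) |>.mp h1
    have h2' := pow_eq_zero_iff (two_ne_zero) |>.mp h2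
    have h3' := pow_eq_zero_iff (two_ne_zero) |>.mp h3
    have h4' := pow_eq_zero_iff (two_ne_zero) |>.mp h4
    exact h ⟨h1', h2', h3', h4'⟩
  exact_mod_cast this

lemma sqh (a : ℤ) : (1 / 4 : ℝ) ≤ ((a : ℝ) + 1 / 2) ^ 2 ∧ (1 / 4 : ℝ) ≤ ((a : ℝ) + 1 / 2 - 1) ^ 2 := by
  have h1 : -(a : ℝ) ≤ (a : ℝ) ^ 2 := by
    have := Int.le_self_sq (-a)
    have h : (-(a : ℤ) : ℤ) ≤ a ^ 2 := by simpa using this
    exact_mod_cast h
  have h2 : (a : ℝ) ≤ (a : ℝ) ^ 2 := by exact_mod_cast Int.le_self_sq a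
  constructor <;> nlinarith

end V13

open V13 in
theorem m3343_thm (hV : S_VOR) (hR : S_RFL) : S_M3343 := by
  have hbb : ∀ k : Fin 4, (inner ℝ (bB k) (bB k) / 2 : ℝ) = 1 / 2 := by
    intro k
    rw [in4]
    fin_cases k <;> simp [bB] <;> norm_num
  refine model_aux hV hR (by norm_num) _ XB ?_ ?_ nB
    (fun i => if i = Fin.last 4 then 1 / 2 else 0) ?_
    bB ?_ ?_ ?_ ?_ ?_ ?_ qB ?_ ?_ ?_ ?_ ?_ ?_ ?_
  · intro x hx
    obtain ⟨a, ha⟩ := hx 0
    obtain ⟨b, hb⟩ := hx 1
    obtain ⟨c, hc⟩ := hx 2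
    obtain ⟨e, he⟩ := hx 3
    refine Or.inl ⟨2 * a, 2 * b, 2 * c, 2 * e, ?_, a + b + c + e, by ring⟩
    apply ext4 <;> simp [ha, hb, hc, he]
  · rintro x (⟨a, b, c, e, rfl, -⟩ | ⟨a, b, c, e, rfl⟩) i
    · fin_cases i
      · exact ⟨2 * a, by simp⟩
      · exact ⟨2 * b, by simp⟩
      · exact ⟨2 * c, by simp⟩
      · exact ⟨2 * e, by simp⟩
    · fin_cases i
      · exact ⟨2 * a + 1, by simp; ring⟩
      · exact ⟨2 * b + 1, by simp; ring⟩
      · exact ⟨2 * c + 1, by simp; ring⟩
      · exact ⟨2 * e + 1, by simp; ring⟩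
  · intro i h
    have h0 := congrArg (fun v : E 4 => inner ℝ v v) h
    simp only [in4] at h0
    fin_cases i <;> simp [nB] at h0 <;> norm_num at h0
  · intro j
    right
    fin_cases j
    · exact ⟨0, -1, 0, 0, by apply ext4 <;> simp [bB] <;> norm_num⟩
    · exact ⟨0, 0, -1, 0, by apply ext4 <;> simp [bB] <;> norm_num⟩
    · exact ⟨0, 0, 0, -1, by apply ext4 <;> simp [bB] <;> norm_num⟩
    · exact ⟨0, 0, 0, 0, by apply ext4 <;> simp [bB]⟩
  · intro j h
    have := hbb j
    rw [h] at this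
    simp at this
  · -- hX
    rintro i x (⟨a, b, c, e, rfl, k, hk⟩ | ⟨a, b, c, e, rfl⟩)
    · have hkR : (a : ℝ) + b + c + e = 2 * k := by exact_mod_cast hk
      fin_cases i
      · rw [rfB _ _ _ ((a : ℝ) - b) (by rw [in4, in4]; simp [nB]; ring)]
        refine Or.inl ⟨b, a, c, e, ?_, k, by linarith⟩
        apply ext4 <;> simp [nB]
      · rw [rfB _ _ _ ((b : ℝ) - c) (by rw [in4, in4]; simp [nB]; ring)]
        refine Or.inl ⟨a, c, b, e, ?_, k, by linarith⟩
        apply ext4 <;> simp [nB]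
      · rw [rfB _ _ _ ((c : ℝ) - e) (by rw [in4, in4]; simp [nB]; ring)]
        refine Or.inl ⟨a, b, e, c, ?_, k, by linarith⟩
        apply ext4 <;> simp [nB]
      · rw [rfB _ _ _ (2 * (e : ℝ)) (by rw [in4, in4]; simp [nB])]
        refine Or.inl ⟨a, b, c, -e, ?_, k - e, by linarith⟩
        apply ext4 <;> simp [nB]
        ring
      · rw [rfB _ _ _ (2 * (k : ℝ) - 1) (by
          rw [in4, in4]; simp [nB, Fin.last]; linarith)]
        refine Or.inr ⟨a - k, b - k, c - k, e - k, ?_⟩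
        apply ext4 <;> simp [nB] <;> ring
    · fin_cases i
      · rw [rfB _ _ _ ((a : ℝ) - b) (by rw [in4, in4]; simp [nB]; ring)]
        refine Or.inr ⟨b, a, c, e, ?_⟩
        apply ext4 <;> simp [nB] <;> ring
      · rw [rfB _ _ _ ((b : ℝ) - c) (by rw [in4, in4]; simp [nB]; ring)]
        refine Or.inr ⟨a, c, b, e, ?_⟩
        apply ext4 <;> simp [nB] <;> ring
      · rw [rfB _ _ _ ((c : ℝ) - e) (by rw [in4, in4]; simp [nB]; ring)]
        refine Or.inr ⟨a, b, e, c, ?_⟩
        apply ext4 <;> simp [nB] <;> ring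
      · rw [rfB _ _ _ (2 * (e : ℝ) + 1) (by rw [in4, in4]; simp [nB]; ring)]
        refine Or.inr ⟨a, b, c, -e - 1, ?_⟩
        apply ext4 <;> simp [nB] <;> ring
      · rw [rfB _ _ _ ((a : ℝ) + b + c + e + 1) (by
          rw [in4, in4]; simp [nB, Fin.last]; ring)]
        rcases Int.even_or_odd' (a + b + c + e) with ⟨k, hk | hk⟩
        · have hkR : (a : ℝ) + b + c + e = 2 * k := by exact_mod_cast hk
          refine Or.inl ⟨a - k, b - k, c - k, e - k, ?_, -k, by linarith⟩
          rw [hkR]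
          apply ext4 <;> simp [nB] <;> ring
        · have hkR : (a : ℝ) + b + c + e = 2 * k + 1 := by exact_mod_cast hk
          refine Or.inr ⟨a - k - 1, b - k - 1, c - k - 1, e - k - 1, ?_⟩
          rw [hkR]
          apply ext4 <;> simp [nB] <;> ring
  · intro i hi
    exact if_neg hi
  · rfl
  · change (1 / 2 : ℝ) = inner ℝ (bB 3) (bB 3) / 2
    rw [hbb]
  · -- hq
    intro i
    rw [mem_vc]
    rintro x (⟨a, b, c, e, rfl, k, hk⟩ | ⟨a, b, c, e, rfl⟩)
    · rw [ll4]
      fin_cases i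
      · have := sq4 (a := a - 1) (b := b) (c := c) (e := e) (by omega)
        push_cast at this
        simp [qB]
        nlinarith
      · have := sq4 (a := a) (b := b - 1) (c := c) (e := e) (by omega)
        push_cast at this
        simp [qB]
        nlinarith
      · have := sq4 (a := a) (b := b) (c := c - 1) (e := e) (by omega)
        push_cast at this
        simp [qB]
        nlinarith
      · have := sq4 (a := a) (b := b) (c := c) (e := e - 1) (by omega)
        push_cast at this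
        simp [qB]
        nlinarith
      · simp [qB]; positivity
    · rw [ll4]
      have ha := sqh a
      have hb := sqh b
      have hc := sqh c
      have he := sqh e
      fin_cases i
      · simp only [qB]
        simp
        norm_num at ha hb hc he
        nlinarith [ha.1, ha.2, hb.1, hc.1, he.1]
      · simp only [qB]
        simp
        norm_num at ha hb hc he
        nlinarith [hb.1, hb.2, ha.1, hc.1, he.1]
      · simp only [qB]
        simp
        norm_num at ha hb hc he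
        nlinarith [hc.1, hc.2, hb.1, ha.1, he.1]
      · simp only [qB]
        simp
        norm_num at ha hb hc he
        nlinarith [he.1, he.2, hb.1, hc.1, ha.1]
      · simp [qB]; positivity
  · -- hq0
    apply ext4 <;> simp [qB, Fin.last]
  · -- hq1
    intro i j hij
    rw [hbb, in4]
    fin_cases i <;> fin_cases j <;> simp [qB, bB] at hij ⊢ <;> norm_num
  · -- hq2
    intro i j hij
    simp only [hbb, in4]
    fin_cases j
    · exact absurd hij (by simp)
    · refine ⟨0, ?_, ?_⟩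
      · have : (i : ℕ) < 1 := hij
        simp; omega
      · simp [qB, bB]; norm_num
    · refine ⟨1, ?_, ?_⟩
      · have : (i : ℕ) < 2 := hij
        simp; omega
      · simp [qB, bB]; norm_num
    · refine ⟨2, ?_, ?_⟩
      · have : (i : ℕ) < 3 := hij
        simp; omega
      · simp [qB, bB]; norm_num
    · refine ⟨3, ?_, ?_⟩
      · have : (i : ℕ) < 4 := hij
        simp; omega
      · simp [qB, bB]; norm_num
  · -- hfix
    intro i j hi hji x hx k hk
    simp only [hbb, in4] at hx ⊢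
    have h0 : (j : ℕ) ≤ 0 → x 0 - x 1 + x 2 + x 3 = 1 := fun h => by
      have := hx 0 h; simp [bB] at this; linarith
    have h1 : (j : ℕ) ≤ 1 → x 0 + x 1 - x 2 + x 3 = 1 := fun h => by
      have := hx 1 h; simp [bB] at this; linarith
    have h2 : (j : ℕ) ≤ 2 → x 0 + x 1 + x 2 - x 3 = 1 := fun h => by
      have := hx 2 h; simp [bB] at this; linarith
    have h3 : (j : ℕ) ≤ 3 → x 0 + x 1 + x 2 + x 3 = 1 := fun h => by
      have := hx 3 h; simp [bB] at this; linarith
    have hji' : (j : ℕ) ≠ i := fun h => hji (Fin.ext h)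
    clear hx hji
    simp only [rf4, in4]
    rcases k with ⟨k, hk4⟩
    rcases i with ⟨i, hi5⟩
    simp only at hk hji'
    have hi4 : i ≠ 4 := fun h => hi (Fin.ext h)
    have hif : (if (⟨i, hi5⟩ : Fin 5) = Fin.last 4 then (1 / 2 : ℝ) else 0) = 0 := if_neg hi
    rw [hif]
    clear hif hi hbb
    have a3 : x 0 + x 1 + x 2 + x 3 = 1 := h3 (by omega)
    interval_cases i
    · -- j ≥ 1
      have hj : 1 ≤ (j : ℕ) := by omega
      interval_cases k
      · omega
      · have := h1 hk
        simp [nB, bB]; linarith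
      · have := h2 hk
        simp [nB, bB]; linarith
      · simp [nB, bB]; linarith
    · interval_cases k
      · have a0 := h0 hk
        have a1 := h1 (by omega)
        simp [nB, bB]; linarith
      · have hk0 : (j : ℕ) ≤ 0 := by omega
        have a0 := h0 hk0
        have a1 := h1 (by omega)
        simp [nB, bB]; linarith
      · have := h2 hk
        simp [nB, bB]; linarith
      · simp [nB, bB]; linarith
    · interval_cases k
      · have a0 := h0 hk
        simp [nB, bB]; linarith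
      · have a1 := h1 hk
        have a2 := h2 (by omega)
        simp [nB, bB]; linarith
      · have a2 := h2 hk
        have a1 := h1 (by omega)
        simp [nB, bB]; linarith
      · simp [nB, bB]; linarith
    · have a2 := h2 (by omega)
      interval_cases k
      · have a0 := h0 hk
        simp [nB, bB]; linarith
      · have a1 := h1 hk
        simp [nB, bB]; linarith
      · simp [nB, bB]; linarith
      · simp [nB, bB]; linarith
    · exact absurd rfl hi4
  · -- hmv
    intro i hi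
    simp only [hbb, in4, rf4, hi, if_false]
    fin_cases i
    · refine ⟨0, by simp, ?_⟩
      simp [nB, bB, qB]; norm_num
    · refine ⟨1, by simp, ?_⟩
      simp [nB, bB, qB]; norm_num
    · refine ⟨2, by simp, ?_⟩
      simp [nB, bB, qB]; norm_num
    · refine ⟨3, by simp, ?_⟩
      simp [nB, bB, qB]; norm_num
    · exact absurd rfl hi
  · -- hord
    intro i j hij
    simp only [in4]
    rcases i with ⟨i, hi5⟩
    rcases j with ⟨j, hj5⟩
    simp only at hij
    subst hij
    have hi4 : i < 4 := by omega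
    interval_cases i
    · left; simp [nB]; norm_num
    · left; simp [nB]; norm_num
    · right; simp [nB]; norm_num
    · left; simp [nB]; norm_num

end TL
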