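import Pool.Agent.Helper13.TL.Vor

set_option autoImplicit false
set_option maxHeartbeats 4000000
set_option linter.unusedVariables false
set_option linter.deprecated false

/-! # TL: a criterion for concrete regular tilings -/

namespace TL

open Set

namespace V13

variable {d : ℕ}

lemma lfin_half {X : Set (E d)} (hh : ∀ x ∈ X, ∀ i, ∃ k : ℤ, 2 * x i = k) : LFin X := by
  intro K hK
  obtain ⟨R, hR⟩ := hK.isBounded.subset_closedBall (0 : E d)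
  have hmaps : MapsTo (fun (x : E d) (i : Fin d) => ⌊2 * x i⌋) (X ∩ K)
      (Set.Icc (fun _ => -⌈2 * R⌉) (fun _ => ⌈2 * R⌉)) := by
    intro x hx
    have h1 : ‖x‖ ≤ R := by
      have := hR hx.2
      rwa [Metric.mem_closedBall, dist_zero_right] at this
    have h2 : ∀ i, -⌈2 * R⌉ ≤ ⌊2 * x i⌋ ∧ ⌊2 * x i⌋ ≤ ⌈2 * R⌉ := by
      intro i
      have h3 : |x i| ≤ R := by
        have := PiLp.norm_apply_le x i
        rw [Real.norm_eq_abs] at this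
        exact this.trans h1
      have h4 := abs_le.mp h3
      have h5 := Int.le_ceil (2 * R)
      constructor
      · rw [Int.le_floor]
        push_cast
        linarith
      · have h6 : ((⌊2 * x i⌋ : ℤ) : ℝ) ≤ ((⌈2 * R⌉ : ℤ) : ℝ) :=
          (Int.floor_le (2 * x i)).trans (by linarith)
        exact_mod_cast h6
    exact ⟨fun i => (h2 i).1, fun i => (h2 i).2⟩
  have hinj : InjOn (fun (x : E d) (i : Fin d) => ⌊2 * x i⌋) (X ∩ K) := by
    intro x hx y hy hxy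
    ext i
    have h1 : ⌊2 * x i⌋ = ⌊2 * y i⌋ := congrFun hxy i
    obtain ⟨k, hk⟩ := hh x hx.1 i
    obtain ⟨l, hl⟩ := hh y hy.1 i
    rw [hk, hl, Int.floor_intCast, Int.floor_intCast] at h1
    rw [h1, ← hl] at hk
    linarith
  exact Set.Finite.of_finite_image ((Set.finite_Icc _ _).subset hmaps.image_subset) hinj

lemma reld_two {X : Set (E d)} (h2 : ∀ x : E d, (∀ i, ∃ k : ℤ, x i = 2 * k) → x ∈ X) :
    ∃ R : ℝ, ∀ x, ∃ a ∈ X, dist x a ≤ R := by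
  refine ⟨√d, fun x => ?_⟩
  refine ⟨WithLp.toLp 2 (fun i => 2 * (round (x i / 2) : ℝ)), h2 _ fun i => ⟨round (x i / 2), rfl⟩,
    ?_⟩
  rw [EuclideanSpace.dist_eq]
  apply Real.sqrt_le_sqrt
  calc ∑ i, dist (x i) ((WithLp.toLp 2 (fun i => 2 * (round (x i / 2) : ℝ)) : E d) i) ^ 2
      ≤ ∑ _i : Fin d, (1 : ℝ) := by
        apply Finset.sum_le_sum
        intro i _
        have h := abs_sub_round (x i / 2)
        have h' : |x i - 2 * (round (x i / 2) : ℝ)| ≤ 1 := by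
          have e : x i - 2 * (round (x i / 2) : ℝ) = 2 * (x i / 2 - (round (x i / 2) : ℝ)) := by
            ring
          rw [e, abs_mul, abs_two]
          linarith
        rw [Real.dist_eq]
        change |x i - 2 * (round (x i / 2) : ℝ)| ^ 2 ≤ 1
        nlinarith [abs_nonneg (x i - 2 * (round (x i / 2) : ℝ))]
    _ = d := by simp

lemma refl_invol {φ : E d ≃ᵢ E d} {n : E d} {c : ℝ} (hn : n ≠ 0) (h : IsRefl φ n c) (x : E d) :
    φ (φ x) = x := by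
  have hnn : (inner ℝ n n : ℝ) ≠ 0 := by
    rw [real_inner_self_eq_norm_sq]
    exact pow_ne_zero _ (norm_ne_zero_iff.mpr hn)
  rw [h (φ x), h x, inner_sub_right, inner_smul_right, sub_sub, ← add_smul]
  have : 2 * (inner ℝ n x - c) / inner ℝ n n +
      2 * (inner ℝ n x - 2 * (inner ℝ n x - c) / inner ℝ n n * inner ℝ n n - c) / inner ℝ n n
      = 0 := by
    field_simp
    ring
  rw [this, zero_smul, sub_zero]

lemma image_eq_of_invol {φ : E d ≃ᵢ E d} (h : ∀ x, φ (φ x) = x) {S : Set (E d)}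
    (hS : ∀ x ∈ S, φ x ∈ S) : φ '' S = S := by
  apply Subset.antisymm
  · rintro _ ⟨x, hx, rfl⟩; exact hS x hx
  · intro x hx
    exact ⟨φ x, hS x hx, h x⟩

/-- the reflected point -/
noncomputable def rf (n : E d) (c : ℝ) (x : E d) : E d :=
  x - (2 * (inner ℝ n x - c) / inner ℝ n n) • n

/-- the faces -/
def FF (X : Set (E d)) (b : Fin d → E d) (i : Fin (d + 1)) : Set (E d) :=
  {x | x ∈ vc X 0 ∧ ∀ k : {k : Fin d // (i : ℕ) ≤ k}, ll 0 (b k.1) x = 0}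

lemma hll (b : Fin d → E d) (k : Fin d) (x : E d) : ll 0 (b k) x = 0 ↔
    inner ℝ (b k) x = (inner ℝ (b k) (b k) / 2 : ℝ) := by
  simp only [ll, norm_zero, inner_zero_right, real_inner_self_eq_norm_sq]
  rw [real_inner_comm (b k) x]
  constructor <;> intro h <;> linarith

lemma mem_FF (X : Set (E d)) (b : Fin d → E d) (i : Fin (d + 1)) (x : E d) :
    x ∈ FF X b i ↔ x ∈ vc X 0 ∧ ∀ k : Fin d, (i : ℕ) ≤ k →
      inner ℝ (b k) x = (inner ℝ (b k) (b k) / 2 : ℝ) := by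
  constructor
  · rintro ⟨h1, h2⟩
    exact ⟨h1, fun k hk => (hll b k x).mp (h2 ⟨k, hk⟩)⟩
  · rintro ⟨h1, h2⟩
    exact ⟨h1, fun k => (hll b k.1 x).mpr (h2 k.1 k.2)⟩

lemma FF_fc {X : Set (E d)} {b : Fin d → E d} (hb : ∀ j, b j ∈ X) (hX0 : (0 : E d) ∈ X)
    {i : Fin (d + 1)} {q : E d} (hq : q ∈ FF X b i) : Fc (vor X) (FF X b i) :=
  ⟨⟨q, hq⟩, vc X 0, ⟨0, hX0, rfl⟩,
    face_of (fun k : {k : Fin d // (i : ℕ) ≤ k} => b k.1) (fun k => hb k.1)⟩

lemma FF_mono {X : Set (E d)} {b : Fin d → E d} {q : Fin (d + 1) → E d}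
    (hqF : ∀ i, q i ∈ FF X b i)
    (hq2 : ∀ i j : Fin (d + 1), i < j → ∃ k : Fin d, (i : ℕ) ≤ k ∧
      inner ℝ (b k) (q j) ≠ (inner ℝ (b k) (b k) / 2 : ℝ)) : StrictMono (FF X b) := by
  intro i j hij
  rw [Set.lt_iff_ssubset, Set.ssubset_iff_of_subset]
  · refine ⟨q j, hqF j, fun hcon => ?_⟩
    obtain ⟨k, hk, hne⟩ := hq2 i j hij
    exact hne (((mem_FF X b i (q j)).mp hcon).2 k hk)
  · intro x hx
    rw [mem_FF] at hx ⊢
    exact ⟨hx.1, fun k hk => hx.2 k (le_trans (by exact_mod_cast hij.le) hk)⟩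

lemma FF_fix {X : Set (E d)} {b : Fin d → E d} (hd : 1 ≤ d) {n : Fin (d + 1) → E d}
    {c : Fin (d + 1) → ℝ} {s : Fin (d + 1) → (E d ≃ᵢ E d)} (hn : ∀ i, n i ≠ 0)
    (hs : ∀ i, IsRefl (s i) (n i) (c i)) (hsX : ∀ i, s i '' X = X)
    (hc : ∀ i, i ≠ Fin.last d → c i = 0)
    (hnl : n (Fin.last d) = b ⟨d - 1, by omega⟩)
    (hcl : c (Fin.last d) = inner ℝ (b ⟨d - 1, by omega⟩) (b ⟨d - 1, by omega⟩) / 2)
    (hfix : ∀ i j : Fin (d + 1), i ≠ Fin.last d → j ≠ i → ∀ x : E d,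
      (∀ k : Fin d, (j : ℕ) ≤ k → inner ℝ (b k) x = (inner ℝ (b k) (b k) / 2 : ℝ)) →
      ∀ k : Fin d, (j : ℕ) ≤ k →
        inner ℝ (b k) (rf (n i) (c i) x) = (inner ℝ (b k) (b k) / 2 : ℝ))
    (i j : Fin (d + 1)) (hji : j ≠ i) : s i '' FF X b j = FF X b j := by
  apply image_eq_of_invol (fun x => refl_invol (hn i) (hs i) x)
  intro x hx
  rw [mem_FF] at hx
  by_cases hi : i = Fin.last d
  · -- fixed pointwise
    have hjd : (j : ℕ) ≤ d - 1 := by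
      have h1 := j.isLt
      have h2 : (j : ℕ) ≠ d := by
        intro h
        apply hji
        rw [hi]
        exact Fin.ext (by simpa using h)
      omega
    have h3 := hx.2 ⟨d - 1, by omega⟩ hjd
    have h4 : s i x = x := by
      rw [hs i x, hi, hcl, hnl, h3, sub_self]
      simp
    rw [h4, mem_FF]
    exact hx
  · rw [mem_FF]
    constructor
    · have h1 : s i 0 = 0 := by
        rw [hs i 0, hc i hi]; simp
      have h2 := image_vc X (s i) (hsX i) 0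
      rw [h1] at h2
      rw [← h2]
      exact ⟨x, hx.1, rfl⟩
    · intro k hk
      rw [hs i x]
      exact hfix i j hi hji x hx.2 k hk

lemma FF_mv {X : Set (E d)} {b : Fin d → E d} (hd : 1 ≤ d) {n : Fin (d + 1) → E d}
    {c : Fin (d + 1) → ℝ} {s : Fin (d + 1) → (E d ≃ᵢ E d)}
    (hs : ∀ i, IsRefl (s i) (n i) (c i))
    (hb : ∀ j, b j ∈ X) (hb0 : ∀ j, b j ≠ 0)
    (hnl : n (Fin.last d) = b ⟨d - 1, by omega⟩)
    (hcl : c (Fin.last d) = inner ℝ (b ⟨d - 1, by omega⟩) (b ⟨d - 1, by omega⟩) / 2)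
    {q : Fin (d + 1) → E d} (hqF : ∀ i, q i ∈ FF X b i) (hq0 : q (Fin.last d) = 0)
    (hmv : ∀ i, i ≠ Fin.last d → ∃ k : Fin d, (i : ℕ) ≤ k ∧
      inner ℝ (b k) (rf (n i) (c i) (q i)) ≠ (inner ℝ (b k) (b k) / 2 : ℝ))
    (i : Fin (d + 1)) : s i '' FF X b i ≠ FF X b i := by
  intro hcon
  have h1 : s i (q i) ∈ FF X b i := by
    rw [← hcon]; exact ⟨q i, hqF i, rfl⟩
  rw [mem_FF] at h1
  by_cases hi : i = Fin.last d
  · subst hi
    have hbb : (inner ℝ (b ⟨d - 1, by omega⟩) (b ⟨d - 1, by omega⟩) : ℝ) ≠ 0 := by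
      rw [real_inner_self_eq_norm_sq]
      exact pow_ne_zero _ (norm_ne_zero_iff.mpr (hb0 _))
    have h2 : s (Fin.last d) (q (Fin.last d)) = b ⟨d - 1, by omega⟩ := by
      rw [hs (Fin.last d), hq0, hcl, hnl]
      simp only [inner_zero_right, zero_sub]
      have e : 2 * -(inner ℝ (b ⟨d - 1, by omega⟩) (b ⟨d - 1, by omega⟩) / 2) /
          inner ℝ (b ⟨d - 1, by omega⟩) (b ⟨d - 1, by omega⟩) = (-1 : ℝ) := by
        field_simp
      rw [e]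
      simp
    rw [h2] at h1
    have h3 := h1.1 _ (hb ⟨d - 1, by omega⟩)
    rw [dist_self, dist_zero_right] at h3
    exact hb0 _ (norm_le_zero_iff.mp h3)
  · obtain ⟨k, hk, hne⟩ := hmv i hi
    apply hne
    have := h1.2 k hk
    rw [hs i (q i)] at this
    exact this

/-- the criterion -/
theorem model_aux (hV : S_VOR) (hR : S_RFL) (hd : 1 ≤ d) (p : ℕ → ℕ) (X : Set (E d))
    (h2 : ∀ x : E d, (∀ i, ∃ k : ℤ, x i = 2 * k) → x ∈ X)
    (hh : ∀ x ∈ X, ∀ i, ∃ k : ℤ, 2 * x i = k)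
    (n : Fin (d + 1) → E d) (c : Fin (d + 1) → ℝ) (hn : ∀ i, n i ≠ 0)
    (b : Fin d → E d) (hb : ∀ j, b j ∈ X) (hb0 : ∀ j, b j ≠ 0)
    (hX : ∀ i, ∀ x ∈ X, rf (n i) (c i) x ∈ X)
    (hc : ∀ i, i ≠ Fin.last d → c i = 0)
    (hnl : n (Fin.last d) = b ⟨d - 1, by omega⟩)
    (hcl : c (Fin.last d) = inner ℝ (b ⟨d - 1, by omega⟩) (b ⟨d - 1, by omega⟩) / 2)
    (q : Fin (d + 1) → E d) (hq : ∀ i, q i ∈ vc X 0) (hq0 : q (Fin.last d) = 0)
    (hq1 : ∀ (i : Fin (d + 1)) (j : Fin d), (i : ℕ) ≤ j →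
      inner ℝ (b j) (q i) = (inner ℝ (b j) (b j) / 2 : ℝ))
    (hq2 : ∀ i j : Fin (d + 1), i < j → ∃ k : Fin d, (i : ℕ) ≤ k ∧
      inner ℝ (b k) (q j) ≠ (inner ℝ (b k) (b k) / 2 : ℝ))
    (hfix : ∀ i j : Fin (d + 1), i ≠ Fin.last d → j ≠ i → ∀ x : E d,
      (∀ k : Fin d, (j : ℕ) ≤ k → inner ℝ (b k) x = (inner ℝ (b k) (b k) / 2 : ℝ)) →
      ∀ k : Fin d, (j : ℕ) ≤ k →
        inner ℝ (b k) (rf (n i) (c i) x) = (inner ℝ (b k) (b k) / 2 : ℝ))
    (hmv : ∀ i, i ≠ Fin.last d → ∃ k : Fin d, (i : ℕ) ≤ k ∧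
      inner ℝ (b k) (rf (n i) (c i) (q i)) ≠ (inner ℝ (b k) (b k) / 2 : ℝ))
    (hord : ∀ i j : Fin (d + 1), (i : ℕ) + 1 = j →
      (p i = 3 ∧ 4 * (inner ℝ (n i) (n j) : ℝ) ^ 2 = inner ℝ (n i) (n i) * inner ℝ (n j) (n j)) ∨
      (p i = 4 ∧ 2 * (inner ℝ (n i) (n j) : ℝ) ^ 2 = inner ℝ (n i) (n i) * inner ℝ (n j) (n j))) :
    Model d p := by
  obtain ⟨R, hRd⟩ := reld_two h2
  have hLF : LFin X := lfin_half hh
  obtain ⟨hLFC, hsym⟩ := hV d X hd hLF ⟨R, hRd⟩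
  obtain ⟨hR1, hR2⟩ := hR d
  choose s hs using fun i => hR1 (n i) (c i) (hn i)
  have hinv : ∀ i x, s i (s i x) = x := fun i x => refl_invol (hn i) (hs i) x
  have hsX : ∀ i, s i '' X = X := fun i =>
    image_eq_of_invol (hinv i) fun x hx => by rw [hs i x]; exact hX i x hx
  have hX0 : (0 : E d) ∈ X := h2 0 fun i => ⟨0, by simp⟩
  have hqF : ∀ i, q i ∈ FF X b i := fun i =>
    (mem_FF X b i (q i)).mpr ⟨hq i, fun k hk => hq1 i k hk⟩
  have hfc : ∀ i, Fc (vor X) (FF X b i) := fun i => FF_fc hb hX0 (hqF i)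
  have hmono : StrictMono (FF X b) := FF_mono hqF hq2
  refine ⟨vor X, hLFC, ⟨FF X b, hfc, hmono⟩, s, ?_, ?_, ?_, ?_⟩
  · intro i T
    exact hsym (s i) (hsX i) T
  · intro i j hji
    exact FF_fix hd hn hs hsX hc hnl hcl hfix i j hji
  · intro i
    exact FF_mv hd hs hb hb0 hnl hcl hqF hq0 hmv i
  · intro i j hij
    have h := hR2 (s i) (s j) (n i) (n j) (c i) (c j) (hn i) (hn j) (hs i) (hs j)
    rcases hord i j hij with ⟨hp, h3⟩ | ⟨hp, h4⟩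
    · rw [hp]; exact h.1 h3
    · rw [hp]; exact h.2 h4

end V13

end TL
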