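import Pool.Agent.Helper22.TL.Spec

set_option autoImplicit false
set_option maxHeartbeats 4000000
set_option linter.unusedVariables false
set_option linter.deprecated false

/-! # TL: Voronoi tilings, basic facts -/

namespace TL

open Set

namespace V13

variable {d : ℕ}

/-- `|x-b|^2 - |x-a|^2` -/
noncomputable def ll (a b x : E d) : ℝ :=
  ‖b‖ ^ 2 - ‖a‖ ^ 2 - 2 * inner ℝ x b + 2 * inner ℝ x a

lemma ll_eq (a b x : E d) : ll a b x = dist x b ^ 2 - dist x a ^ 2 := by
  rw [dist_eq_norm, dist_eq_norm, @norm_sub_sq ℝ, @norm_sub_sq ℝ]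
  simp only [ll, RCLike.re_to_real]
  ring

lemma ll_aff (a b x y : E d) (s t : ℝ) (h : s + t = 1) :
    ll a b (s • x + t • y) = s * ll a b x + t * ll a b y := by
  simp only [ll, inner_add_left, inner_smul_left]
  simp only [conj_trivial]
  linear_combination (‖a‖ ^ 2 - ‖b‖ ^ 2) * h

lemma dist_le_iff (x a b : E d) : dist x a ≤ dist x b ↔ 0 ≤ ll a b x := by
  rw [ll_eq, sub_nonneg]
  exact (sq_le_sq₀ dist_nonneg dist_nonneg).symm

lemma dist_eq_iff (x a b : E d) : dist x a = dist x b ↔ ll a b x = 0 := by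
  rw [ll_eq, sub_eq_zero]
  constructor
  · intro h; rw [h]
  · intro h
    exact ((sq_eq_sq₀ dist_nonneg dist_nonneg).mp h).symm

lemma dist_lt_iff (x a b : E d) : dist x a < dist x b ↔ 0 < ll a b x := by
  rw [ll_eq, sub_pos]
  exact (sq_lt_sq₀ dist_nonneg dist_nonneg).symm

lemma ll_cont (a b : E d) : Continuous (ll a b) := by
  unfold ll
  fun_prop

lemma mem_vc {X : Set (E d)} {a x : E d} : x ∈ vc X a ↔ ∀ b ∈ X, 0 ≤ ll a b x := by
  simp only [vc, mem_setOf_eq, dist_le_iff]

lemma vc_convex (X : Set (E d)) (a : E d) : Convex ℝ (vc X a) := by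
  intro x hx y hy s t hs ht hst
  rw [mem_vc] at hx hy ⊢
  intro b hb
  rw [ll_aff a b x y s t hst]
  exact add_nonneg (mul_nonneg hs (hx b hb)) (mul_nonneg ht (hy b hb))

lemma vc_closed (X : Set (E d)) (a : E d) : IsClosed (vc X a) := by
  have : vc X a = ⋂ b ∈ X, {x | dist x a ≤ dist x b} := by
    ext x; simp [vc]
  rw [this]
  exact isClosed_biInter fun b _ => isClosed_le (by fun_prop) (by fun_prop)

/-- locally finite -/
def LFin (X : Set (E d)) : Prop := ∀ K : Set (E d), IsCompact K → (X ∩ K).Finite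

/-- points of the cell are near the center -/
lemma vc_dist {X : Set (E d)} {R : ℝ} (hR : ∀ x, ∃ a ∈ X, dist x a ≤ R) {a x : E d}
    (hx : x ∈ vc X a) : dist x a ≤ R := by
  obtain ⟨b, hb, hxb⟩ := hR x
  exact (hx b hb).trans hxb

lemma vc_compact {X : Set (E d)} {R : ℝ} (hR : ∀ x, ∃ a ∈ X, dist x a ≤ R) (a : E d) :
    IsCompact (vc X a) := by
  refine IsCompact.of_isClosed_subset (isCompact_closedBall a R) (vc_closed X a) ?_
  intro x hx
  exact vc_dist hR hx

lemma exists_nearest {X : Set (E d)} (hf : LFin X) {R : ℝ} (hR : ∀ x, ∃ a ∈ X, dist x a ≤ R)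
    (x : E d) : ∃ a ∈ X, x ∈ vc X a := by
  obtain ⟨a0, ha0, hxa0⟩ := hR x
  have hfin := hf (Metric.closedBall x R) (isCompact_closedBall x R)
  have hne : (X ∩ Metric.closedBall x R).Nonempty :=
    ⟨a0, ha0, by rw [Metric.mem_closedBall, dist_comm]; exact hxa0⟩
  obtain ⟨a, ha, hmin⟩ := hfin.exists_minimalFor (fun b => dist x b) _ hne
  refine ⟨a, ha.1, fun b hb => ?_⟩
  by_cases hbR : dist x b ≤ R
  · have hb' : b ∈ X ∩ Metric.closedBall x R :=
      ⟨hb, by rw [Metric.mem_closedBall, dist_comm]; exact hbR⟩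
    by_contra hlt
    push Not at hlt
    have := hmin hb' hlt.le
    linarith
  · push Not at hbR
    have := ha.2
    rw [Metric.mem_closedBall, dist_comm] at this
    linarith

lemma exists_ball {X : Set (E d)} (hf : LFin X) (a : E d) :
    ∃ δ > 0, ∀ b ∈ X, b ≠ a → δ ≤ dist b a := by
  have hfin : ((X ∩ Metric.closedBall a 1) \ {a}).Finite :=
    (hf _ (isCompact_closedBall a 1)).subset diff_subset
  have hcl : IsClosed ((X ∩ Metric.closedBall a 1) \ {a}) := hfin.isClosed
  have hmem : a ∈ ((X ∩ Metric.closedBall a 1) \ {a})ᶜ := by simp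
  obtain ⟨δ, hδ, hsub⟩ := Metric.isOpen_iff.mp hcl.isOpen_compl a hmem
  refine ⟨min δ 1, lt_min hδ one_pos, fun b hb hba => ?_⟩
  by_contra hlt
  push Not at hlt
  have h1 : dist b a < δ := lt_of_lt_of_le hlt (min_le_left _ _)
  have h2 : dist b a < 1 := lt_of_lt_of_le hlt (min_le_right _ _)
  have := hsub (Metric.mem_ball.mpr h1)
  exact this ⟨⟨hb, Metric.mem_closedBall.mpr h2.le⟩, hba⟩

lemma vc_ball {X : Set (E d)} {a : E d} {δ : ℝ} (h : ∀ b ∈ X, b ≠ a → δ ≤ dist b a) :
    Metric.ball a (δ / 2) ⊆ vc X a := by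
  intro x hx b hb
  rw [Metric.mem_ball] at hx
  by_cases hba : b = a
  · rw [hba]
  · have h1 := h b hb hba
    have h2 : dist b a ≤ dist b x + dist x a := dist_triangle _ _ _
    rw [dist_comm b x] at h2
    linarith

lemma vc_interior {X : Set (E d)} (hf : LFin X) (a : E d) : (interior (vc X a)).Nonempty := by
  obtain ⟨δ, hδ, h⟩ := exists_ball hf a
  refine ⟨a, interior_maximal (vc_ball h) Metric.isOpen_ball ?_⟩
  exact Metric.mem_ball_self (by linarith)

/-- equality constraints give faces -/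
lemma face_of {X : Set (E d)} {a : E d} {ι : Type} (b : ι → E d) (hb : ∀ i, b i ∈ X) :
    IsFace (vc X a) {x | x ∈ vc X a ∧ ∀ i, ll a (b i) x = 0} := by
  constructor
  · constructor
    · intro x hx; exact hx.1
    · intro x hx y hy z hz hseg
      refine ⟨hx, fun i => ?_⟩
      obtain ⟨s, t, hs, ht, hst, rfl⟩ := hseg
      have h0 := hz.2 i
      rw [ll_aff a (b i) x y s t hst] at h0
      have h1 := mem_vc.mp hx (b i) (hb i)
      have h2 := mem_vc.mp hy (b i) (hb i)
      have h3 : 0 ≤ t * ll a (b i) y := mul_nonneg ht.le h2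
      have h4 : s * ll a (b i) x = 0 := by
        have := mul_nonneg hs.le h1
        linarith
      rcases mul_eq_zero.mp h4 with h | h
      · exact absurd h hs.ne'
      · exact h
  · intro x hx y hy s t hs ht hst
    refine ⟨vc_convex X a hx.1 hy.1 hs ht hst, fun i => ?_⟩
    rw [ll_aff a (b i) x y s t hst, hx.2 i, hy.2 i]
    ring

lemma ll_self (a x : E d) : ll a a x = 0 := by
  rw [ll_eq]; ring

lemma inter_eq {X : Set (E d)} {a b : E d} (ha : a ∈ X) (hb : b ∈ X) :
    vc X a ∩ vc X b = {x | x ∈ vc X a ∧ ∀ i : Unit, ll a ((fun _ => b) i) x = 0} := by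
  ext x
  simp only [mem_inter_iff, mem_setOf_eq, forall_const]
  constructor
  · rintro ⟨h1, h2⟩
    refine ⟨h1, ?_⟩
    rw [← dist_eq_iff]
    exact le_antisymm (h1 b hb) (h2 a ha)
  · rintro ⟨h1, h2⟩
    rw [← dist_eq_iff] at h2
    refine ⟨h1, fun c hc => ?_⟩
    rw [← h2]
    exact h1 c hc

/-- extreme points are determined by the active constraints -/
lemma ext_inj {X : Set (E d)} (hf : LFin X) {R : ℝ} (hR : ∀ x, ∃ a ∈ X, dist x a ≤ R) {a : E d}
    {x y : E d} (hx : x ∈ (vc X a).extremePoints ℝ) (hy : y ∈ vc X a)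
    (hA : ∀ b ∈ X, ll a b x = 0 → ll a b y = 0) : x = y := by
  by_contra hne
  have hxT : x ∈ vc X a := hx.1
  have hR0 : 0 ≤ R := dist_nonneg.trans (vc_dist hR hxT)
  -- the nonactive constraints near x
  set S : Set (E d) := X ∩ Metric.closedBall a (2 * R + 3) with hS
  have hSf : S.Finite := hf _ (isCompact_closedBall _ _)
  have hev : ∀ᶠ z in nhds x, ∀ b ∈ S, ll a b x ≠ 0 → 0 < ll a b z := by
    rw [Filter.eventually_all_finite hSf]
    intro b hb
    by_cases h0 : ll a b x = 0
    · exact Filter.Eventually.of_forall fun z h => absurd h0 h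
    · have hpos : 0 < ll a b x := lt_of_le_of_ne (mem_vc.mp hxT b hb.1) (Ne.symm h0)
      filter_upwards [(ll_cont a b).continuousAt.eventually (lt_mem_nhds hpos)] with z hz _
      exact hz
  have hev2 : ∀ᶠ z in nhds x, dist z x < 1 := Metric.ball_mem_nhds x one_pos
  have htend : Filter.Tendsto (fun t : ℝ => (1 + t) • x + (-t) • y) (nhds 0) (nhds x) := by
    have hc : Continuous (fun t : ℝ => (1 + t) • x + (-t) • y) := by fun_prop
    have := hc.tendsto 0
    simpa using this
  have hev3 := htend.eventually (hev.and hev2)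
  obtain ⟨ε, hε, hball⟩ := Metric.eventually_nhds_iff.mp hev3
  set t : ℝ := ε / 2 with ht
  have htpos : 0 < t := by positivity
  obtain ⟨h1, h2⟩ := hball (y := t) (by
    rw [Real.dist_eq, sub_zero, abs_of_pos htpos]; linarith)
  set z : E d := (1 + t) • x + (-t) • y with hz
  have hzT : z ∈ vc X a := by
    rw [mem_vc]
    intro b hb
    by_cases hbS : dist b a ≤ 2 * R + 3
    · by_cases h0 : ll a b x = 0
      · rw [hz, ll_aff a b x y (1 + t) (-t) (by ring), h0, hA b hb h0]
        simp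
      · exact (h1 b ⟨hb, Metric.mem_closedBall.mpr hbS⟩ h0).le
    · push Not at hbS
      rw [← dist_le_iff]
      have h3 : dist z a ≤ dist z x + dist x a := dist_triangle _ _ _
      have h4 := vc_dist hR hxT
      have h5 : dist b a ≤ dist b z + dist z a := dist_triangle _ _ _
      rw [dist_comm b z] at h5
      linarith
  have hseg : x ∈ openSegment ℝ z y := by
    refine ⟨1 / (1 + t), t / (1 + t), by positivity, by positivity, by field_simp, ?_⟩
    rw [hz, smul_add, smul_smul, smul_smul, add_assoc, ← add_smul]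
    have e1 : 1 / (1 + t) * (1 + t) = 1 := by field_simp
    have e2 : 1 / (1 + t) * -t + t / (1 + t) = 0 := by ring
    rw [e1, e2, one_smul, zero_smul, add_zero]
  have hzx := hx.2 hzT hy hseg
  have : t • (x - y) = 0 := by
    have : z - x = t • (x - y) := by
      rw [hz]; module
    rw [← this, hzx, sub_self]
  rcases smul_eq_zero.mp this with h | h
  · exact htpos.ne' h
  · exact hne (sub_eq_zero.mp h)

lemma ext_finite {X : Set (E d)} (hf : LFin X) {R : ℝ} (hR : ∀ x, ∃ a ∈ X, dist x a ≤ R)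
    (a : E d) : ((vc X a).extremePoints ℝ).Finite := by
  set S : Set (E d) := X ∩ Metric.closedBall a (2 * R) with hS
  have hSf : S.Finite := hf _ (isCompact_closedBall _ _)
  have hmaps : MapsTo (fun x => {b | b ∈ X ∧ ll a b x = 0}) ((vc X a).extremePoints ℝ) (𝒫 S) := by
    intro x hx b hb
    refine ⟨hb.1, ?_⟩
    have h1 := vc_dist hR hx.1
    have h2 := (dist_eq_iff x a b).mpr hb.2
    have h3 : dist b a ≤ dist b x + dist x a := dist_triangle _ _ _
    rw [dist_comm b x] at h3
    rw [Metric.mem_closedBall]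
    linarith
  have hinj : InjOn (fun x => {b | b ∈ X ∧ ll a b x = 0}) ((vc X a).extremePoints ℝ) := by
    intro x hx y hy hxy
    refine ext_inj hf hR hx hy.1 fun b hb h0 => ?_
    have : b ∈ {b | b ∈ X ∧ ll a b x = 0} := ⟨hb, h0⟩
    have h := (Set.ext_iff.mp hxy b).mp this
    exact h.2
  exact Set.Finite.of_finite_image (hSf.powerset.subset hmaps.image_subset) hinj

lemma vc_poly {X : Set (E d)} (hf : LFin X) {R : ℝ} (hR : ∀ x, ∃ a ∈ X, dist x a ≤ R)
    (a : E d) : IsPoly (vc X a) := by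
  refine ⟨⟨(ext_finite hf hR a).toFinset, ?_⟩, vc_interior hf a⟩
  rw [Set.Finite.coe_toFinset]
  have h := closure_convexHull_extremePoints (vc_compact hR a) (vc_convex X a)
  have hc : IsClosed (convexHull ℝ ((vc X a).extremePoints ℝ)) :=
    (ext_finite hf hR a).isClosed_convexHull (𝕜 := ℝ)
  rw [hc.closure_eq] at h
  exact h.symm

lemma vc_inj {X : Set (E d)} (hf : LFin X) {a b : E d} (ha : a ∈ X) (hb : b ∈ X)
    (h : vc X a = vc X b) : a = b := by
  have h1 : a ∈ vc X a := by
    intro c _; rw [dist_self]; exact dist_nonneg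
  rw [h] at h1
  have := h1 a ha
  rw [dist_self] at this
  exact dist_le_zero.mp this

lemma vc_disj {X : Set (E d)} {a b : E d} (ha : a ∈ X) (hb : b ∈ X) (hab : a ≠ b) :
    Disjoint (interior (vc X a)) (interior (vc X b)) := by
  rw [Set.disjoint_left]
  intro x hxa hxb
  have h0 : ll a b x = 0 := by
    rw [← dist_eq_iff]
    exact le_antisymm (interior_subset hxa b hb) (interior_subset hxb a ha)
  have htend : Filter.Tendsto (fun t : ℝ => x + t • (b - a)) (nhds 0) (nhds x) := by
    have hc : Continuous (fun t : ℝ => x + t • (b - a)) := by fun_prop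
    have := hc.tendsto 0
    simpa using this
  have hev := htend.eventually (isOpen_interior.mem_nhds hxa)
  obtain ⟨ε, hε, hball⟩ := Metric.eventually_nhds_iff.mp hev
  have h1 := hball (y := ε / 2) (by
    rw [Real.dist_eq, sub_zero, abs_of_pos (by positivity)]; linarith)
  have h2 := mem_vc.mp (interior_subset h1) b hb
  have h3 : ll a b (x + (ε / 2) • (b - a)) = ll a b x - ε * ‖b - a‖ ^ 2 := by
    simp only [ll, inner_add_left, inner_smul_left, conj_trivial]
    rw [@norm_sub_sq ℝ]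
    simp only [RCLike.re_to_real, inner_sub_left, real_inner_self_eq_norm_sq]
    rw [real_inner_comm b a]
    ring
  rw [h3, h0] at h2
  have h4 : 0 < ‖b - a‖ := norm_pos_iff.mpr (sub_ne_zero.mpr hab.symm)
  have : 0 < ε * ‖b - a‖ ^ 2 := by positivity
  linarith

lemma image_vc (X : Set (E d)) (φ : E d ≃ᵢ E d) (h : φ '' X = X) (a : E d) :
    φ '' vc X a = vc X (φ a) := by
  ext x
  constructor
  · rintro ⟨y, hy, rfl⟩ b hb
    rw [← h] at hb
    obtain ⟨c, hc, rfl⟩ := hb
    rw [φ.dist_eq, φ.dist_eq]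
    exact hy c hc
  · intro hx
    refine ⟨φ.symm x, fun b hb => ?_, φ.apply_symm_apply x⟩
    have h1 := hx (φ b) (by rw [← h]; exact ⟨b, hb, rfl⟩)
    rw [← φ.apply_symm_apply x, φ.dist_eq, φ.dist_eq] at h1
    simpa using h1

end V13

theorem vor_thm : S_VOR := by
  intro d X hd hf ⟨R, hR⟩
  refine ⟨⟨?_, ?_, ?_, ?_, ?_⟩, ?_⟩
  · rintro T ⟨a, ha, rfl⟩
    exact V13.vc_poly hf hR a
  · intro x
    obtain ⟨a, ha, hx⟩ := V13.exists_nearest hf hR x
    exact ⟨vc X a, ⟨a, ha, rfl⟩, hx⟩
  · rintro T ⟨a, ha, rfl⟩ T' ⟨b, hb, rfl⟩ hne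
    exact V13.vc_disj ha hb (fun h => hne (by rw [h]))
  · rintro T ⟨a, ha, rfl⟩ T' ⟨b, hb, rfl⟩
    rw [V13.inter_eq ha hb]
    exact V13.face_of (fun _ => b) (fun _ => hb)
  · intro K hK
    have hfin := hf (Metric.cthickening R K) (hK.cthickening)
    refine (hfin.image (fun a => vc X a)).subset ?_
    rintro T ⟨⟨a, ha, rfl⟩, x, hxT, hxK⟩
    refine ⟨a, ⟨ha, ?_⟩, rfl⟩
    have h1 := V13.vc_dist hR hxT
    exact Metric.mem_cthickening_of_dist_le a x R K hxK (by rw [dist_comm]; exact h1)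
  · intro φ hφ T
    constructor
    · rintro ⟨a, ha, hT⟩
      rw [← hφ] at ha
      obtain ⟨b, hb, rfl⟩ := ha
      refine ⟨b, hb, ?_⟩
      rw [← V13.image_vc X φ hφ b] at hT
      exact φ.injective.image_injective hT
    · rintro ⟨a, ha, rfl⟩
      refine ⟨φ a, by rw [← hφ]; exact ⟨a, ha, rfl⟩, V13.image_vc X φ hφ a⟩

end TL
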